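import Pool.Agent.H297R2.LG.Final

open Filter

namespace Pool.Agent.Results.MP_7b186b_nt.LargeProportion

/-- multiplicity of `s` as a zero of the Riemann zeta function (order of vanishing at `s`) -/
noncomputable def zmult (s : ℂ) : ℕ := analyticOrderNatAt riemannZeta s

/-- the number of nontrivial zeros of `ζ` with ordinate in `(0, t]`, with multiplicity -/
noncomputable def NZ (t : ℝ) : ℕ :=
  ∑ᶠ s ∈ {s : ℂ | riemannZeta s = 0 ∧ 0 < s.re ∧ s.re < 1 ∧ 0 < s.im ∧ s.im ≤ t}, zmult s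

/-- for `n ≥ 1`: the `n`-th positive ordinate `γ n` of a nontrivial zero of `ζ`, the ordinates being
listed in nondecreasing order and repeated according to multiplicity -/
noncomputable def γ (n : ℕ) : ℝ := sInf {t : ℝ | n ≤ NZ t}

/-- On the Riemann hypothesis, `(γ_{n+1} - γ_n) log γ_n > 3.57 · 2π` for a positive proportion of
the `n`. -/
theorem result (RH : RiemannHypothesis) :
    ∃ ε : ℝ, 0 < ε ∧ ∀ᶠ N : ℕ in atTop,
      ε * N ≤ ({n : ℕ | 1 ≤ n ∧ n ≤ N ∧
        357 / 100 * (2 * Real.pi) < (γ (n + 1) - γ n) * Real.log (γ n)}.ncard : ℝ) := by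
  have hRHs : SP.RHs := by
    intro s h1 h2 h0
    apply RH s h0
    · rintro ⟨k, hk⟩
      have := congrArg Complex.re hk
      simp at this
      have hk0 : (0 : ℝ) ≤ k := Nat.cast_nonneg k
      linarith
    · intro h; rw [h] at h2; simp at h2
  obtain ⟨ε, hε, h⟩ := LG.FINAL hRHs
  refine ⟨ε, hε, ?_⟩
  filter_upwards [h] with N hN
  refine hN.trans ?_
  have hsub : {n : ℕ | 1 ≤ n ∧ n ≤ N ∧
        357 / 100 < (SG.ord (n + 1) - SG.ord n) / (2 * Real.pi) *
          Real.log (SG.ord n / (2 * Real.pi))} ⊆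
      {n : ℕ | 1 ≤ n ∧ n ≤ N ∧
        357 / 100 * (2 * Real.pi) < (SG.ord (n + 1) - SG.ord n) * Real.log (SG.ord n)} := by
    rintro n ⟨h1, h2, h3⟩
    refine ⟨h1, h2, ?_⟩
    have hpi := Real.pi_pos
    have hpi3 := Real.pi_gt_three
    have hg : 0 ≤ SG.ord (n + 1) - SG.ord n := sub_nonneg.mpr (SG.ord_mono h1 (by omega))
    have hp : 0 < SG.ord n := SG.ord_pos h1
    have hlog : Real.log (SG.ord n / (2 * Real.pi)) ≤ Real.log (SG.ord n) := by
      apply Real.log_le_log (by positivity)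
      rw [div_le_iff₀ (by positivity)]
      nlinarith
    calc 357 / 100 * (2 * Real.pi) <
        (SG.ord (n + 1) - SG.ord n) / (2 * Real.pi) *
          Real.log (SG.ord n / (2 * Real.pi)) * (2 * Real.pi) := by gcongr
      _ = (SG.ord (n + 1) - SG.ord n) * Real.log (SG.ord n / (2 * Real.pi)) := by
          field_simp
      _ ≤ (SG.ord (n + 1) - SG.ord n) * Real.log (SG.ord n) := by gcongr
  have hfin : {n : ℕ | 1 ≤ n ∧ n ≤ N ∧
        357 / 100 * (2 * Real.pi) < (SG.ord (n + 1) - SG.ord n) * Real.log (SG.ord n)}.Finite :=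
    (Set.finite_Icc 1 N).subset fun n hn => ⟨hn.1, hn.2.1⟩
  exact_mod_cast Set.ncard_le_ncard hsub hfin

end Pool.Agent.Results.MP_7b186b_nt.LargeProportion
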